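import Mathlib
import Pool.Agent.Q17.Ext.Main

/-!
# MP_d6a497_nt: `t^{w-1} X_{w,1}(it)` is decreasing

For every even `w ≥ 6` other than `8` and `10`, with `X_{w,1}` the depth-one extremal quasimodular
form of weight `w`, the function `t ↦ t^{w-1} X_{w,1}(it)` is (strictly) decreasing on `(0, ∞)`.
-/

set_option autoImplicit false

open UpperHalfPlane ModularForm MatrixGroups

namespace Pool.Agent.Results.MP_d6a497_nt.Decreasing

/-- `X` is a quasimodular form of weight `w` and depth at most one: `X = f + E_2 g` with `f` in `M_w`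
and `g` in `M_{w-2}`. -/
def IsQuasi (w : ℕ) (X : ℍ → ℂ) : Prop :=
  ∃ (f : ModularForm 𝒮ℒ (w : ℤ)) (g : ModularForm 𝒮ℒ ((w : ℤ) - 2)),
    X = fun z => f z + EisensteinSeries.E2 z * g z

/-- The dimension `d_w = dim M_w + dim M_{w-2}`. -/
noncomputable def dw (w : ℕ) : ℕ :=
  Module.finrank ℂ (ModularForm 𝒮ℒ (w : ℤ)) + Module.finrank ℂ (ModularForm 𝒮ℒ ((w : ℤ) - 2))

/-- `X` is the extremal quasimodular form `X_{w,1}`: a quasimodular form of weight `w` and depth at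
most one whose `q`-expansion is `q^(d_w - 1) + O(q^(d_w))`. -/
def IsExtremal (w : ℕ) (X : ℍ → ℂ) : Prop :=
  IsQuasi w X ∧ ∀ n < dw w, (qExpansion 1 X).coeff n = if n + 1 = dw w then 1 else 0

/-- The point `i t` of the upper half-plane (for `t > 0`). -/
noncomputable def it (t : ℝ) : ℍ := ofComplex ((t : ℂ) * Complex.I)

/-- `φ_w(t) = t^{w-1} X(it)`. -/
noncomputable def phi (w : ℕ) (X : ℍ → ℂ) (t : ℝ) : ℝ := t ^ (w - 1) * (X (it t)).re

/-- auxiliary form with `w = 6 n + e` -/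
theorem main (n e : ℕ) (hn : 1 ≤ n) (he : e = 0 ∨ e = 2 ∨ e = 4) :
    (∃! X, IsExtremal (6 * n + e) X) ∧
    ((e = 0 ∨ 2 ≤ n) → ∀ X, IsExtremal (6 * n + e) X →
      (∀ t : ℝ, 0 < t → (X (it t)).im = 0) ∧ StrictAntiOn (phi (6 * n + e) X) (Set.Ioi 0)) := by
  obtain ⟨p, hc, h0, h1, ⟨f, g, hp⟩, hmono⟩ := Pool.Agent.Q17.Ext.main n e hn he
  have hcast : (((6 * n + e : ℕ) : ℤ)) = (6 * n + e : ℤ) := by push_cast; ring
  have hdim : dw (6 * n + e) = n + 1 := by
    have := Pool.Agent.Q17.Ext.dimQ n e hn he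
    rw [dw, hcast]; exact this
  -- the extremal form
  set X₀ : ℍ → ℂ := fun z => f z + EisensteinSeries.E2 z * g z with hX₀
  have hq : qExpansion 1 X₀ = Pool.Agent.Q17.Mil.R.cm p := by
    rw [hX₀, Pool.Agent.Q17.Ext.quasi_q, hp]
  have hHS : Pool.Agent.Q17.Mil.HS (Pool.Agent.Q17.Mil.R.cm p) X₀ := by
    rw [hp]; exact Pool.Agent.Q17.Ext.quasi_HS f g
  have hco : ∀ j < n + 1, (Pool.Agent.Q17.Mil.R.cm p).coeff j = if j + 1 = n + 1 then 1 else 0 := by
    intro j hj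
    rw [PowerSeries.coeff_map]
    rcases Nat.lt_succ_iff_lt_or_eq.1 hj with h | h
    · rw [h0 j h, if_neg (by omega), map_zero]
    · subst h; rw [h1, if_pos rfl, map_one]
  have hqm : IsQuasi (6 * n + e) X₀ := by
    rw [IsQuasi, hcast]; exact ⟨f, g, rfl⟩
  have hext : IsExtremal (6 * n + e) X₀ := by
    refine ⟨hqm, fun j hj => ?_⟩
    rw [hdim] at hj ⊢
    rw [hq]; exact hco j hj
  have huniq : ∀ X, IsExtremal (6 * n + e) X → X = X₀ := by
    intro X hX
    obtain ⟨hX1, hX2⟩ := hX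
    rw [IsQuasi, hcast] at hX1
    obtain ⟨f', g', rfl⟩ := hX1
    rw [hdim] at hX2
    have hinj := Pool.Agent.Q17.Ext.uniq n e hn he
    have : (f', g') = (f, g) := by
      apply hinj
      ext i
      change PowerSeries.coeff (i : ℕ) (qExpansion 1 f' + Pool.Agent.Q17.Mil.E2p * qExpansion 1 g') =
        PowerSeries.coeff (i : ℕ) (qExpansion 1 f + Pool.Agent.Q17.Mil.E2p * qExpansion 1 g)
      rw [← Pool.Agent.Q17.Ext.quasi_q, hX2 i i.2, ← hp, hco i i.2]
    rw [Prod.mk.injEq] at this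
    rw [this.1, this.2]
  refine ⟨⟨X₀, hext, huniq⟩, fun hcase X hX => ?_⟩
  rw [huniq X hX]
  have hval : ∀ t : ℝ, 0 < t → X₀ (it t) = ((Pool.Agent.Q17.Ext.ev p t : ℝ) : ℂ) := by
    intro t ht
    have e1 : it t = Pool.Agent.Q17.Ext.pt t ht := by
      apply UpperHalfPlane.ext
      rw [it, ofComplex_apply_of_im_pos (by simpa using ht)]
      rfl
    rw [e1]
    exact Pool.Agent.Q17.Ext.HS_ev hHS ht
  refine ⟨fun t ht => by rw [hval t ht, Complex.ofReal_im], ?_⟩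
  refine (hmono hcase).congr fun t ht => ?_
  have ht' : 0 < t := ht
  rw [phi, hval t ht', Complex.ofReal_re]

/-- **Q1 is true.** For every even `w ≥ 6` the extremal quasimodular form `X_{w,1}` exists and is
unique, and if `w ≠ 8, 10` then `X_{w,1}(it)` is real and `t ↦ t^{w-1} X_{w,1}(it)` is strictly
decreasing on `(0, ∞)`. -/
theorem result (w : ℕ) (hw : Even w) (h6 : 6 ≤ w) :
    (∃! X, IsExtremal w X) ∧
    (w ≠ 8 → w ≠ 10 → ∀ X, IsExtremal w X →
      (∀ t : ℝ, 0 < t → (X (it t)).im = 0) ∧ StrictAntiOn (phi w X) (Set.Ioi 0)) := by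
  obtain ⟨n, e, hn, he, rfl⟩ : ∃ n e : ℕ, 1 ≤ n ∧ (e = 0 ∨ e = 2 ∨ e = 4) ∧ w = 6 * n + e := by
    rw [Nat.even_iff] at hw
    exact ⟨w / 6, w % 6, by omega, by omega, by omega⟩
  obtain ⟨m1, m2⟩ := main n e hn he
  exact ⟨m1, fun h8 h10 => m2 (by omega)⟩

end Pool.Agent.Results.MP_d6a497_nt.Decreasing
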